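import Pool.Agent.Lib.MP_fc9dee_ag.DMod
import Pool.Agent.Lib.MP_fc9dee_ag.Top
import Pool.Agent.Lib.MP_fc9dee_ag.Pinch

namespace Pool.Agent.Results.MP_fc9dee_ag.NonNormal

open Pool.Agent.Lib.MP_fc9dee_ag

/-- For every `n ≥ 1` and `N` there is an irreducible affine Poisson variety `X = Spec A` with a
symplectic resolution `Spec B` of dimension `2n` (an affine space) whose top cohomology vanishes,
while `A / {A, A}` and the degree-zero Poisson-de Rham homology (for every closed embedding of `X`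
into a smooth affine variety) have dimension at least `N`. -/
theorem result (n N : ℕ) (hn : 1 ≤ n) :
    ∃ (A : Type) (_ : CommRing A) (_ : Algebra ℂ A) (PA : Poisson A)
      (B : Type) (_ : CommRing B) (_ : Algebra ℂ B) (PB : Poisson B) (φ : A →ₐ[ℂ] B),
      IsSymplecticResolution PA PB φ ∧
      Nonempty (B ≃ₐ[ℂ] MvPolynomial (Fin n ⊕ Fin n) ℂ) ∧
      ringKrullDim B = (2 * n : ℕ) ∧
      Module.rank ℂ (singularCohomology (points B) (2 * n)) = 0 ∧
      (N : Cardinal) ≤ Module.rank ℂ (HP0 PA) ∧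
      ∀ (R : Type) [CommRing R] [Algebra ℂ R], Algebra.Smooth ℂ R →
        ∀ π : R →ₐ[ℂ] A, Function.Surjective π →
          (N : Cardinal) ≤ Module.rank ℂ (HPDR PA π 0) :=
  ⟨pinch n (N + 1 + 1), _, _, pinchPoisson n (by omega), Bn n, _, _, stdPoisson n, _,
    pinch_resolution hn _, ⟨AlgEquiv.refl⟩, dim_Bn, rank_cohomology_affine _ (by omega),
    le_rank_HP0 hn N, fun _ _ _ _ π hπ => (le_rank_HP0 hn N).trans (rank_HP0_le _ π hπ)⟩

end Pool.Agent.Results.MP_fc9dee_ag.NonNormal
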